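import Pool.Agent.C2.Stmts

set_option autoImplicit false

namespace Pool.Agent.C2.H8

variable {F : Type} [Field F] {X : Type} [Fintype X]

/-- the linear form of the border -/
def D (b : X → F) : (X → F) →ₗ[F] F where
  toFun u := ∑ x, b x * u x
  map_add' u v := by simp [mul_add, Finset.sum_add_distrib]
  map_smul' c u := by
    simp only [Pi.smul_apply, smul_eq_mul, RingHom.id_apply, Finset.mul_sum]
    exact Finset.sum_congr rfl (fun x _ => by ring)

/-- the linear map of the block -/
def L (B : Matrix X X F) : (X → F) →ₗ[F] (X → F) where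
  toFun u := fun x => ∑ y, B x y * u y
  map_add' u v := by
    funext x
    simp [mul_add, Finset.sum_add_distrib]
  map_smul' c u := by
    funext x
    simp only [Pi.smul_apply, smul_eq_mul, RingHom.id_apply, Finset.mul_sum]
    exact Finset.sum_congr rfl (fun x _ => by ring)

theorem D_apply (b u : X → F) : D b u = ∑ x, b x * u x := rfl

theorem L_apply (B : Matrix X X F) (u : X → F) (x : X) : L B u x = ∑ y, B x y * u y := rfl

theorem kB_eq (B : Matrix X X F) : kB B = Nat.card {u : X → F // L B u = 0} := by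
  unfold kB
  refine Nat.card_congr (Equiv.subtypeEquivRight ?_)
  intro u
  constructor
  · intro h; funext x; exact h x
  · intro h x; exact congrFun h x

theorem cE_eq (a : F) (b : X → F) (B : Matrix X X F) :
    cE a b B = Nat.card {p : F × (X → F) // a * p.1 + D b p.2 = 0 ∧ L B p.2 + p.1 • b = 0} := by
  unfold cE
  refine Nat.card_congr (Equiv.subtypeEquivRight ?_)
  intro p
  constructor
  · rintro ⟨h1, h2⟩
    refine ⟨h1, ?_⟩
    funext x
    have := h2 x
    show L B p.2 x + p.1 * b x = 0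
    rw [mul_comm]; exact this
  · rintro ⟨h1, h2⟩
    refine ⟨h1, fun x => ?_⟩
    have := congrFun h2 x
    have h3 : L B p.2 x + p.1 * b x = 0 := this
    rw [mul_comm] at h3; exact h3

theorem rB_eq (b : X → F) (B : Matrix X X F) : rB b B = Nat.card {u : X → F // L B u + b = 0} := by
  unfold rB
  refine Nat.card_congr (Equiv.subtypeEquivRight ?_)
  intro u
  constructor
  · intro h; funext x; exact h x
  · intro h x; exact congrFun h x

/-- symmetric: a linear form which vanishes on the kernel is in the image -/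
theorem exists_img (b : X → F) (B : Matrix X X F) (hB : ∀ x y, B x y = B y x)
    (h : ∀ u, L B u = 0 → D b u = 0) : ∃ u, L B u + b = 0 := by
  classical
  have h1 : D b ∈ LinearMap.range (L B).dualMap := by
    rw [LinearMap.range_dualMap_eq_dualAnnihilator_ker, Submodule.mem_dualAnnihilator]
    intro u hu
    exact h u (LinearMap.mem_ker.1 hu)
  obtain ⟨g, hg⟩ := h1
  refine ⟨fun x => - g (Pi.single x 1), ?_⟩
  funext y
  have h2 : D b (Pi.single y 1) = g (L B (Pi.single y 1)) := by rw [← hg]; rfl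
  have h3 : D b (Pi.single y 1) = b y := by
    rw [D_apply, Finset.sum_eq_single y]
    · simp
    · intro x _ hx; simp [hx]
    · intro hy; exact absurd (Finset.mem_univ _) hy
  have h4 : L B (Pi.single y 1) = ∑ x, (B x y) • (Pi.single x 1 : X → F) := by
    funext z
    rw [L_apply, Finset.sum_eq_single y]
    · rw [Finset.sum_apply, Finset.sum_eq_single z]
      · simp
      · intro x _ hx; simp [hx.symm]
      · intro hz; exact absurd (Finset.mem_univ _) hz
    · intro x _ hx; simp [hx]
    · intro hy; exact absurd (Finset.mem_univ _) hy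
  rw [h3, h4, map_sum] at h2
  show ∑ x, B y x * (- g (Pi.single x 1)) + b y = 0
  rw [h2, ← Finset.sum_add_distrib]
  refine Finset.sum_eq_zero (fun x _ => ?_)
  rw [map_smul, smul_eq_mul, hB x y]
  ring

/-- sym -/
theorem D_of_img (b : X → F) (B : Matrix X X F) (hB : ∀ x y, B x y = B y x) (x0 : X → F)
    (h0 : L B x0 + b = 0) (u : X → F) (hu : L B u = 0) : D b u = 0 := by
  have hb : ∀ x, b x = - ∑ y, B x y * x0 y := by
    intro x
    have := congrFun h0 x
    have h3 : L B x0 x + b x = 0 := this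
    rw [L_apply] at h3
    exact eq_neg_of_add_eq_zero_right h3
  have hu' : ∀ y, ∑ x, B y x * u x = 0 := fun y => congrFun hu y
  rw [D_apply]
  have e1 : ∑ x, b x * u x = - ∑ x, ∑ y, B x y * x0 y * u x := by
    rw [← Finset.sum_neg_distrib]
    refine Finset.sum_congr rfl (fun x _ => ?_)
    rw [hb x, neg_mul, Finset.sum_mul]
  rw [e1, Finset.sum_comm, neg_eq_zero]
  refine Finset.sum_eq_zero (fun y _ => ?_)
  have e2 : ∑ x, B x y * x0 y * u x = x0 y * ∑ x, B y x * u x := by
    rw [Finset.mul_sum]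
    refine Finset.sum_congr rfl (fun x _ => ?_)
    rw [hB x y]; ring
  rw [e2, hu' y, mul_zero]

theorem case1 [Fintype F] (a : F) (b : X → F) (B : Matrix X X F) (u1 : X → F) (h1 : L B u1 = 0)
    (h2 : D b u1 = 1) (h0 : ∀ u, ¬ L B u + b = 0) : Fintype.card F * cE a b B = kB B := by
  have e1 : Nat.card (F × {p : F × (X → F) // a * p.1 + D b p.2 = 0 ∧ L B p.2 + p.1 • b = 0}) =
      Nat.card {u : X → F // L B u = 0} := by
    have hz : ∀ p : F × (X → F), a * p.1 + D b p.2 = 0 ∧ L B p.2 + p.1 • b = 0 → p.1 = 0 := by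
      rintro ⟨c, u⟩ ⟨_, h4⟩
      by_contra hc
      have hc' : c ≠ 0 := hc
      apply h0 (c⁻¹ • u)
      have h5 : L B u + c • b = 0 := h4
      rw [map_smul]
      have : c⁻¹ • (L B u + c • b) = 0 := by rw [h5, smul_zero]
      rw [smul_add, smul_smul, inv_mul_cancel₀ hc', one_smul] at this
      exact this
    refine Nat.card_congr
      { toFun := fun x => ⟨x.2.1.2 + x.1 • u1, ?_⟩
        invFun := fun v => ⟨D b v.1, ⟨(0, v.1 - D b v.1 • u1), ?_, ?_⟩⟩
        left_inv := ?_
        right_inv := ?_ }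
    · obtain ⟨c, p, h3, h4⟩ := x
      have hp := hz p ⟨h3, h4⟩
      rw [hp, zero_smul, add_zero] at h4
      show L B (p.2 + c • u1) = 0
      rw [map_add, map_smul, h1, h4, smul_zero, add_zero]
    · show a * 0 + D b (v.1 - D b v.1 • u1) = 0
      rw [map_sub, map_smul, h2, smul_eq_mul]
      ring
    · show L B (v.1 - D b v.1 • u1) + (0 : F) • b = 0
      rw [map_sub, map_smul, h1, v.2]
      simp
    · rintro ⟨c, p, h3, h4⟩
      have hp := hz p ⟨h3, h4⟩
      have hD : D b p.2 = 0 := by rw [hp, mul_zero, zero_add] at h3; exact h3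
      have e2 : D b (p.2 + c • u1) = c := by
        rw [map_add, map_smul, h2, hD, smul_eq_mul]; ring
      have e3 : ((0 : F), p.2 + c • u1 - D b (p.2 + c • u1) • u1) = p := by
        rw [e2]
        refine Prod.ext hp.symm ?_
        show p.2 + c • u1 - c • u1 = p.2
        abel
      refine Prod.ext e2 (Subtype.ext e3)
    · rintro ⟨v, hv⟩
      refine Subtype.ext ?_
      show v - D b v • u1 + D b v • u1 = v
      abel
  rw [Nat.card_prod, Nat.card_eq_fintype_card, ← cE_eq, ← kB_eq] at e1
  exact e1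

theorem case2 (b : X → F) (B : Matrix X X F) (x0 : X → F) (h0 : L B x0 + b = 0) :
    rB b B = kB B := by
  rw [rB_eq, kB_eq]
  refine Nat.card_congr
    { toFun := fun u => ⟨u.1 - x0, ?_⟩
      invFun := fun v => ⟨v.1 + x0, ?_⟩
      left_inv := ?_
      right_inv := ?_ }
  · rw [map_sub]
    have h1 := u.2
    have : L B u.1 - L B x0 = (L B u.1 + b) - (L B x0 + b) := by abel
    rw [this, h1, h0, sub_zero]
  · rw [map_add, v.2, zero_add]; exact h0
  · rintro ⟨u, hu⟩
    refine Subtype.ext ?_
    show u - x0 + x0 = u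
    abel
  · rintro ⟨u, hu⟩
    refine Subtype.ext ?_
    show u + x0 - x0 = u
    abel

theorem case2a (a : F) (b : X → F) (B : Matrix X X F) (x0 : X → F) (h0 : L B x0 + b = 0)
    (hD : ∀ u, L B u = 0 → D b u = 0) (ha : a + D b x0 ≠ 0) : cE a b B = kB B := by
  rw [cE_eq, kB_eq]
  have key : ∀ p : F × (X → F), a * p.1 + D b p.2 = 0 ∧ L B p.2 + p.1 • b = 0 → p.1 = 0 := by
    rintro ⟨c, u⟩ ⟨h3, h4⟩
    have h3' : a * c + D b u = 0 := h3
    have h4' : L B u + c • b = 0 := h4
    have h5 : L B (u - c • x0) = 0 := by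
      rw [map_sub, map_smul]
      have : L B u - c • L B x0 = (L B u + c • b) - c • (L B x0 + b) := by
        rw [smul_add]; abel
      rw [this, h4', h0, smul_zero, sub_zero]
    have h6 := hD _ h5
    rw [map_sub, map_smul, smul_eq_mul, sub_eq_zero] at h6
    rw [h6] at h3'
    have h7 : c * (a + D b x0) = 0 := by rw [← h3']; ring
    rcases mul_eq_zero.1 h7 with h | h
    · exact h
    · exact absurd h ha
  refine Nat.card_congr
    { toFun := fun p => ⟨p.1.2, ?_⟩
      invFun := fun v => ⟨(0, v.1), ?_, ?_⟩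
      left_inv := ?_
      right_inv := ?_ }
  · have h1 := key p.1 p.2
    have h2 := p.2.2
    rw [h1, zero_smul, add_zero] at h2
    exact h2
  · show a * 0 + D b v.1 = 0
    rw [hD _ v.2]; ring
  · show L B v.1 + (0 : F) • b = 0
    rw [v.2]; simp
  · rintro ⟨p, hp⟩
    refine Subtype.ext (Prod.ext ?_ rfl)
    exact (key p hp).symm
  · rintro ⟨u, hu⟩
    rfl

theorem case2b [Fintype F] (a : F) (b : X → F) (B : Matrix X X F) (x0 : X → F) (h0 : L B x0 + b = 0)
    (hD : ∀ u, L B u = 0 → D b u = 0) (ha : a + D b x0 = 0) :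
    cE a b B = Fintype.card F * kB B := by
  rw [cE_eq, kB_eq, ← Nat.card_eq_fintype_card, ← Nat.card_prod]
  refine Nat.card_congr
    { toFun := fun p => (p.1.1, ⟨p.1.2 - p.1.1 • x0, ?_⟩)
      invFun := fun v => ⟨(v.1, v.2.1 + v.1 • x0), ?_, ?_⟩
      left_inv := ?_
      right_inv := ?_ }
  · have h4 := p.2.2
    rw [map_sub, map_smul]
    have : L B p.1.2 - p.1.1 • L B x0 = (L B p.1.2 + p.1.1 • b) - p.1.1 • (L B x0 + b) := by
      rw [smul_add]; abel
    rw [this, h4, h0, smul_zero, sub_zero]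
  · show a * v.1 + D b (v.2.1 + v.1 • x0) = 0
    rw [map_add, map_smul, hD _ v.2.2, smul_eq_mul, zero_add, mul_comm v.1, ← add_mul, ha, zero_mul]
  · show L B (v.2.1 + v.1 • x0) + v.1 • b = 0
    rw [map_add, map_smul, v.2.2, zero_add, ← smul_add, h0, smul_zero]
  · rintro ⟨p, hp⟩
    refine Subtype.ext (Prod.ext rfl ?_)
    show p.2 - p.1 • x0 + p.1 • x0 = p.2
    abel
  · rintro ⟨c, u, hu⟩
    refine Prod.ext rfl (Subtype.ext ?_)
    show u + c • x0 - c • x0 = u
    abel

theorem ak3 : Ak3Stmt := by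
  classical
  intro F _ _ X _ b B hB
  by_cases hex : ∃ x0, L B x0 + b = 0
  · obtain ⟨x0, h0⟩ := hex
    have hD := D_of_img b B hB x0 h0
    have e1 : ∀ a : F, (cE a b B : ℤ) ^ 3 = (kB B : ℤ) ^ 3 +
        if a = - D b x0 then (((Fintype.card F : ℤ) ^ 3 - 1) * (kB B : ℤ) ^ 3) else 0 := by
      intro a
      by_cases ha : a = - D b x0
      · rw [if_pos ha, case2b a b B x0 h0 hD (by rw [ha]; ring)]
        push_cast
        ring
      · rw [if_neg ha, case2a a b B x0 h0 hD (fun h => ha (eq_neg_of_add_eq_zero_left h)), add_zero]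
    rw [Finset.sum_congr rfl (fun a _ => e1 a), Finset.sum_add_distrib, Finset.sum_ite_eq',
      if_pos (Finset.mem_univ _), Finset.sum_const, Finset.card_univ, case2 b B x0 h0, nsmul_eq_mul]
    ring
  · have hex' : ∀ u, ¬ L B u + b = 0 := fun u hu => hex ⟨u, hu⟩
    have h1 : ∃ u, L B u = 0 ∧ D b u ≠ 0 := by
      by_contra hcon
      apply hex
      apply exists_img b B hB
      intro u hu
      by_contra hne
      exact hcon ⟨u, hu, hne⟩
    obtain ⟨u, hu, hne⟩ := h1
    have h2 : ∀ a : F, Fintype.card F * cE a b B = kB B := by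
      intro a
      refine case1 a b B ((D b u)⁻¹ • u) ?_ ?_ hex'
      · rw [map_smul, hu, smul_zero]
      · rw [map_smul, smul_eq_mul, inv_mul_cancel₀ hne]
    have h3 : rB b B = 0 := by
      rw [rB_eq]
      haveI : IsEmpty {u : X → F // L B u + b = 0} := ⟨fun u => hex' u.1 u.2⟩
      exact Nat.card_of_isEmpty
    have h4 : ∀ a : F, (Fintype.card F : ℤ) * (cE a b B : ℤ) = (kB B : ℤ) := by
      intro a; exact_mod_cast h2 a
    have h5 : ∀ a : F, (cE a b B : ℤ) = (cE 0 b B : ℤ) := by
      intro a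
      have hq : (Fintype.card F : ℤ) ≠ 0 := by
        have : 0 < Fintype.card F := Fintype.card_pos
        exact_mod_cast this.ne'
      apply mul_left_cancel₀ hq
      rw [h4 a, h4 0]
    rw [h3, Finset.sum_congr rfl (fun a _ => by rw [h5 a]), Finset.sum_const, Finset.card_univ,
      nsmul_eq_mul, ← h4 0]
    push_cast
    ring

end Pool.Agent.C2.H8
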